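import Pool.Agent.Run7.h495.SV.Stm

/-!
Project SV (helper495), piece COV.
-/

set_option autoImplicit false

open MeasureTheory Set Filter Topology Metric Module
open scoped ENNReal RealInnerProductSpace ContDiff

namespace Pool.Agent.Run7.h459.SV

open Pool.Agent.Run7.h495.SV

theorem tent_cont : Continuous tent := by
  unfold tent
  fun_prop

theorem tent_compact : HasCompactSupport tent := by
  refine HasCompactSupport.intro (K := Icc (-2) 2) isCompact_Icc ?_
  intro x hx
  unfold tent
  rw [mem_Icc, not_and_or, not_le, not_le] at hx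
  apply max_eq_left
  rcases hx with h | h
  · rw [abs_of_neg (by linarith)]
    linarith
  · rw [abs_of_pos (by linarith)]
    linarith

theorem tent_int : Integrable tent := tent_cont.integrable_of_hasCompactSupport tent_compact

theorem ofLp_emb (n : ℕ) : MeasurableEmbedding (@WithLp.ofLp 2 (Fin n → ℝ)) :=
  (MeasurableEquiv.toLp 2 (Fin n → ℝ)).symm.measurableEmbedding

theorem cov_int (n : ℕ) : Integrable (cov (n := n)) := by
  have h1 : Integrable (fun y : Fin n → ℝ => ∏ i, tent (y i)) :=
    Integrable.fintype_prod (f := fun _ => tent) (fun _ => tent_int)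
  have h2 := (PiLp.volume_preserving_ofLp (Fin n)).integrable_comp_emb (ofLp_emb n)
    (g := fun y : Fin n → ℝ => ∏ i, tent (y i))
  exact h2.mpr h1

theorem t_COV : S_TENT → S_COV := by
  intro hT n ξ
  refine ⟨cov_int n, ?_⟩
  have h1 : ft (cov (n := n)) ξ = ∫ x : Eu n, (fun y : Fin n → ℝ =>
      ∏ i, (Complex.exp (-((y i * ξ i : ℝ) : ℂ) * Complex.I) * (tent (y i) : ℂ)))
        (WithLp.ofLp x) := by
    unfold ft
    refine integral_congr_ae (Eventually.of_forall fun x => ?_)
    simp only
    rw [Finset.prod_mul_distrib, ← Complex.exp_sum]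
    congr 1
    · congr 1
      rw [← Finset.sum_mul, Finset.sum_neg_distrib]
      congr 2
      rw [PiLp.inner_apply]
      push_cast
      refine Finset.sum_congr rfl fun i _ => ?_
      simp [mul_comm]
    · unfold cov
      push_cast
      rfl
  have h2 := (PiLp.volume_preserving_ofLp (Fin n)).integral_comp (ofLp_emb n)
    (fun y : Fin n → ℝ =>
      ∏ i, (Complex.exp (-((y i * ξ i : ℝ) : ℂ) * Complex.I) * (tent (y i) : ℂ)))
  refine h1.trans (h2.trans ?_)
  rw [integral_fintype_prod_volume_eq_prod (fun (i : Fin n) (v : ℝ) =>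
      Complex.exp (-((v * ξ i : ℝ) : ℂ) * Complex.I) * (tent v : ℂ))]
  unfold covHat
  push_cast
  refine Finset.prod_congr rfl fun i _ => ?_
  have := hT (ξ i)
  push_cast at this
  exact this

end Pool.Agent.Run7.h459.SV
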